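import Pool.Agent.Helper21.W4.St2

/-!
Project W4 (MP_4a5405_co), module Cap: the members of the class satisfy Cap.
-/

set_option autoImplicit false

namespace Pool.Agent.Helper99.W4

open Pool.Agent.Helper21.W4 Finset

theorem hCap : StCap := by
  intro B h1 h2 h3 c1 c2 c3 hC
  have e12 := hC.pp.e12
  have e13 := hC.pp.e13
  have s1 := hC.s1
  refine ⟨?_, ?_, ?_⟩
  · intro p q hpos
    have h0 := s1 p q 0
    have h0' := e13 p q 0
    constructor
    · intro hb
      apply eq_of_forall_lt_iff
      intro r
      have a1 := s1 p q r
      have a2 := e13 p q r
      simp only [lt_min_iff]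
      omega
    · intro hb
      apply eq_of_forall_lt_iff
      intro r
      have a1 := s1 p q r
      have a2 := e13 p q r
      simp only [lt_min_iff]
      omega
  · intro p r hpos
    have h0 := s1 p 0 r
    have h0' := e12 p 0 r
    constructor
    · intro hb
      apply eq_of_forall_lt_iff
      intro q
      have a1 := s1 p q r
      have a2 := e12 p q r
      have a3 := e13 0 q r
      have a4 := e12 0 q r
      simp only [lt_min_iff]
      omega
    · intro hb
      apply eq_of_forall_lt_iff
      intro q
      have a1 := s1 p q r
      have a2 := e12 p q r
      have a3 := e13 0 q r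
      have a4 := e12 0 q r
      simp only [lt_min_iff]
      omega
  · intro q r hpos
    have h0 := s1 0 q r
    constructor
    · intro hb
      apply eq_of_forall_lt_iff
      intro p
      have a1 := s1 p q r
      have a3 := e12 p q 0
      have a4 := e13 p 0 r
      simp only [lt_min_iff]
      omega
    · intro hb
      apply eq_of_forall_lt_iff
      intro p
      have a1 := s1 p q r
      have a3 := e12 p q 0
      have a4 := e13 p 0 r
      simp only [lt_min_iff]
      omega

end Pool.Agent.Helper99.W4
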