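import Pool.Agent.Helper21.W4.St2

/-!
Project W4 (MP_4a5405_co), module Dn: equal rows in type 3.
-/

set_option autoImplicit false

namespace Pool.Agent.Helper99.W4

open Pool.Agent.Helper21.W4 Finset

theorem hDn : StDn := by
  intro hAr hMUt B h1 h2 h3 h hC hh
  have e12 := hC.pp.e12
  have e13 := hC.pp.e13
  have s1 := hC.s1
  obtain ⟨m1, m2, m3, m4⟩ := hMUt B h1 h2 h3 h hC hh
  have hP0 : PP0 B h1 h2 h3 := ⟨hC.pp.e12, hC.pp.e13, hC.pp.bd⟩
  obtain ⟨_, _, _, _, _, _, _, hs1, _, _, hs2, _⟩ := hAr B h1 h2 h3 hP0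
  have hsub : Finset.Ico 1 (h - 1) ⊆
      ((range B).filter (fun r => 1 ≤ r ∧ r + 1 < h ∧ 2 ≤ h1 1 r ∧
        ∀ p ∈ range B, h1 p (r + 1) = h1 p r)) ∪
      (((cor B (fun r => h1 0 r)).filter (fun l => l < h)) ∪
        ((cor B (fun r => h2 0 r)).filter (fun l => l < h))) := by
    intro r hr
    rw [Finset.mem_Ico] at hr
    have b1 : 1 < h1 1 r := (e13 1 1 r).2 (by omega)
    have b2 := hC.pp.bd 1 1 r b1
    have b3 : 1 < h1 0 r := (e13 1 0 r).2 (by omega)
    have b4 : 0 < h1 1 r := (e13 0 1 r).2 (by omega)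
    have b5 : 1 < h2 0 r := (e12 0 1 r).1 b4
    have c1 : h1 0 (r + 1) ≤ h1 0 r := hs1.anti r
    have c2 : h2 0 (r + 1) ≤ h2 0 r := hs2.anti r
    rw [Finset.mem_union, Finset.mem_union]
    by_cases d1 : h1 0 (r + 1) < h1 0 r
    · right; left
      rw [Finset.mem_filter]
      refine ⟨?_, by omega⟩
      unfold cor
      rw [Finset.mem_filter]
      exact ⟨Finset.mem_range.2 (by omega), by omega, b3, d1⟩
    by_cases d2 : h2 0 (r + 1) < h2 0 r
    · right; right
      rw [Finset.mem_filter]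
      refine ⟨?_, by omega⟩
      unfold cor
      rw [Finset.mem_filter]
      exact ⟨Finset.mem_range.2 (by omega), by omega, b5, d2⟩
    · left
      rw [Finset.mem_filter]
      refine ⟨Finset.mem_range.2 (by omega), by omega, by omega, b1, ?_⟩
      intro q _
      have d1' : h1 0 (r + 1) = h1 0 r := by omega
      have d2' : h2 0 (r + 1) = h2 0 r := by omega
      apply eq_of_forall_lt_iff
      intro p
      have a1 := s1 p q (r + 1)
      have a2 := s1 p q r
      have a3 := e13 p 0 (r + 1)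
      have a4 := e13 p 0 r
      have a5 := e13 0 q (r + 1)
      have a6 := e12 0 q (r + 1)
      have a7 := e13 0 q r
      have a8 := e12 0 q r
      rw [d1'] at a3
      rw [d2'] at a6
      omega
  have hcard := Finset.card_le_card hsub
  rw [Nat.card_Ico] at hcard
  have hu := Finset.card_union_le
    ((range B).filter (fun r => 1 ≤ r ∧ r + 1 < h ∧ 2 ≤ h1 1 r ∧
        ∀ p ∈ range B, h1 p (r + 1) = h1 p r))
      (((cor B (fun r => h1 0 r)).filter (fun l => l < h)) ∪
        ((cor B (fun r => h2 0 r)).filter (fun l => l < h)))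
  have hu2 := Finset.card_union_le ((cor B (fun r => h1 0 r)).filter (fun l => l < h))
        ((cor B (fun r => h2 0 r)).filter (fun l => l < h))
  unfold dnv
  omega

end Pool.Agent.Helper99.W4
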