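import Pool.Agent.Helper21.W4.St2

/-!
Project W4 (MP_4a5405_co), module Ld: no losses if (1,1,0) is missing.
-/

set_option autoImplicit false

namespace Pool.Agent.Helper99.W4

open Pool.Agent.Helper21.W4 Finset

theorem loss_zero (B : ℕ) (h : ℕ → ℕ → ℕ) (ci cj ck : ℕ)
    (hh : ∀ p q, ¬ inR h ci cj ck p q) : loss B h ci cj ck = 0 := by
  have h1 : rr B h ci cj ck = 0 := by
    unfold rr
    rw [Finset.card_eq_zero, Finset.filter_eq_empty_iff]
    intro x _ hx
    exact hh _ _ hx.1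
  unfold loss
  rw [h1]
  simp

theorem hLd : StLd := by
  intro hAr B h1 h2 h3 c1 c2 c3 hC h110
  have hP0 : PP0 B h1 h2 h3 := ⟨hC.pp.e12, hC.pp.e13, hC.pp.bd⟩
  obtain ⟨_, _, _, _, hs, _⟩ := hAr B h1 h2 h3 hP0
  have hmono : ∀ q, 1 ≤ q → h1 q 0 ≤ 1 := by
    intro q hq
    have h : Antitone (fun q => h1 q 0) := antitone_nat_of_succ_le hs.anti
    exact le_trans (h hq) h110
  have g1 := hC.g1
  have g2 := hC.g2
  refine ⟨?_, ?_, ?_⟩
  · apply loss_zero
    rintro q r ⟨ha, _, _, hb, _⟩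
    have := hmono q (le_trans g2 ha)
    omega
  · apply loss_zero
    rintro p r ⟨ha, _, _, hb, _⟩
    have h3' : p < h1 1 0 := (hC.pp.e12 p 1 0).2 (by omega)
    omega
  · apply loss_zero
    rintro p q ⟨ha, hb, hc, _, _⟩
    have h3' : p < h1 q 0 := (hC.pp.e13 p q 0).2 hc
    have := hmono q (le_trans g2 hb)
    omega

end Pool.Agent.Helper99.W4
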