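import Pool.Agent.Helper21.W4.St2

/-!
Project W4 (MP_4a5405_co), module MU: spines.
-/

set_option autoImplicit false

namespace Pool.Agent.Helper99.W4

open Pool.Agent.Helper21.W4 Finset

theorem hMU : StMU := by
  intro B h1 h2 h3 c1 c2 c3 hC h11 hc
  have b1 := hC.s1 1 1 1
  apply eq_of_forall_lt_iff
  intro p
  have a1 := hC.s1 p 1 1
  have a2 := hC.pp.e12 p 1 0
  have a3 := hC.pp.e13 p 0 1
  simp only [lt_min_iff]
  omega

theorem hMUt : StMUt := by
  intro B h1 h2 h3 h hC hh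
  have hbd : 3 ≤ B := by
    have := hC.pp.bd 1 0 0 (by have := hC.pp.n1; omega)
    omega
  have hg : 1 < h2 1 0 ∧ h < h3 1 0 ∧ h < h3 0 1 := by
    rcases hC.gen with hg | hg
    · exact hg
    · omega
  refine ⟨?_, hg.1, hg.2.1, hg.2.2⟩
  apply eq_of_forall_lt_iff
  intro r
  have a1 := hC.s1 1 1 r
  have a2 := hC.pp.e13 1 1 r
  omega

end Pool.Agent.Helper99.W4
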