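import Pool.Agent.Helper21.W4.St2

/-!
Project W4 (MP_4a5405_co), module Sp: the spine is in the interior.
-/

set_option autoImplicit false

namespace Pool.Agent.Helper99.W4

open Pool.Agent.Helper21.W4 Finset

theorem sp_sum_ge (n k : ℕ) (x : ℕ → ℕ) (hk : k ≤ n) (hx : ∀ p < k, 1 ≤ x p) :
    k ≤ ∑ p ∈ range n, x p := by
  calc k = ∑ p ∈ range k, 1 := by simp
    _ ≤ ∑ p ∈ range k, x p := Finset.sum_le_sum fun p hp => hx p (Finset.mem_range.1 hp)
    _ ≤ ∑ p ∈ range n, x p := Finset.sum_le_sum_of_subset (Finset.range_subset_range.2 hk)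

theorem hSp : StSp := by
  intro B h1 h2 h3 hP h11
  have e12 := hP.e12
  have e13 := hP.e13
  have hb1 := hP.bd (h1 1 1 - 1) 1 1 (by omega)
  have hb2 : h2 1 1 < B := by
    rcases Nat.eq_zero_or_pos (h2 1 1) with h0 | h0
    · omega
    · have a1 := (e12 1 (h2 1 1 - 1) 1).2 (by omega)
      have a2 := hP.bd 1 (h2 1 1 - 1) 1 a1
      omega
  obtain ⟨n, rfl⟩ : ∃ n, B = n + 1 := ⟨B - 1, by omega⟩
  have k1 : h1 1 1 - 2 ≤ ∑ p ∈ range n, (h3 (p + 1 + 1) (0 + 1) - 1) := by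
    apply sp_sum_ge
    · omega
    · intro p hp
      have a1 := (e13 (p + 2) 1 1).1 (by omega)
      show 1 ≤ h3 (p + 2) 1 - 1
      omega
  have k2 : h2 1 1 - 2 ≤ ∑ q ∈ range n, (h3 (0 + 1) (q + 1 + 1) - 1) := by
    apply sp_sum_ge
    · omega
    · intro q hq
      have a1 := (e12 1 (q + 2) 1).2 (by omega)
      have a2 := (e13 1 (q + 2) 1).1 a1
      show 1 ≤ h3 1 (q + 2) - 1
      omega
  have k3 : ∑ p ∈ range n, (h3 (p + 1 + 1) (0 + 1) - 1) ≤
      ∑ p ∈ range n, ∑ q ∈ range (n + 1), (h3 (p + 1 + 1) (q + 1) - 1) := by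
    refine Finset.sum_le_sum fun p _ => ?_
    exact Finset.single_le_sum (f := fun q => h3 (p + 1 + 1) (q + 1) - 1)
      (fun q _ => Nat.zero_le _) (Finset.mem_range.2 (Nat.succ_pos n))
  have a2 : 2 ≤ h2 1 1 := (e12 1 1 1).1 (by omega)
  have a3 : 2 ≤ h3 1 1 := (e13 1 1 1).1 (by omega)
  unfold bk
  rw [Finset.sum_range_succ', Finset.sum_range_succ' (fun q => h3 (0 + 1) (q + 1) - 1)]
  have k4 : h3 (0 + 1) (0 + 1) - 1 = h3 1 1 - 1 := rfl
  omega

end Pool.Agent.Helper99.W4
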